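import Pool.Agent.H32.RK.TargetsB

/-!
# Dependent primitive vectors over the ring of integers
-/

set_option autoImplicit false

open Finset NumberField Pool.Agent.H32.RQ Pool.Agent.H32.RK

namespace Pool.Agent.H74.RK.DEP

theorem aux {R : Type} [CommRing R] {s : ℕ} {x y : Fin s → R} (h : ∀ i j, mnr x y i j = 0)
    {a : Fin s → R} (ha : ∑ i, a i * x i = 1) (j : Fin s) : y j = (∑ i, a i * y i) * x j := by
  have h1 : ∑ i, a i * mnr x y i j = 0 := Finset.sum_eq_zero fun i _ => by rw [h, mul_zero]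
  have h2 : ∑ i, a i * mnr x y i j = (∑ i, a i * x i) * y j - (∑ i, a i * y i) * x j := by
    rw [Finset.sum_mul, Finset.sum_mul, ← Finset.sum_sub_distrib]
    apply Finset.sum_congr rfl
    intro i _
    unfold mnr
    ring
  rw [h2, ha] at h1
  linear_combination h1

end Pool.Agent.H74.RK.DEP

namespace Pool.Agent.H74.RK

theorem pf_DEP (K : Type) [Field K] [NumberField K] : T_DEP K := by
  rintro s x y ⟨a, ha⟩ ⟨b, hb⟩ h
  have h' : ∀ i j, mnr y x i j = 0 := by
    intro i j
    have h1 := h j i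
    unfold mnr at h1 ⊢
    linear_combination h1
  obtain ⟨r, hr⟩ : ∃ r, r = ∑ i, a i * y i := ⟨_, rfl⟩
  obtain ⟨r', hr'⟩ : ∃ r', r' = ∑ i, b i * x i := ⟨_, rfl⟩
  have h1 : ∀ j, y j = r * x j := fun j => by rw [hr]; exact DEP.aux h ha j
  have h2 : ∀ j, x j = r' * y j := fun j => by rw [hr']; exact DEP.aux h' hb j
  have h3 : r' * r = 1 := by
    rw [← ha, hr, Finset.mul_sum]
    apply Finset.sum_congr rfl
    intro i _
    rw [h2 i]
    ring
  refine ⟨⟨r, r', ?_, h3⟩, h1⟩
  rw [mul_comm]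
  exact h3

end Pool.Agent.H74.RK
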