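import Pool.Agent.H32.RK.TargetsA

/-!
# Zeros over the completions of a number field
-/

set_option autoImplicit false

open Finset NumberField Pool.Agent.H32.RQ Pool.Agent.H32.RK

namespace Pool.Agent.H74.RK.QPZ

open IsDedekindDomain WithZero

variable {K : Type} [Field K] [NumberField K]

/-- the embedding of the integers -/
noncomputable abbrev io (v : HeightOneSpectrum (𝓞 K)) : 𝓞 K →+* v.adicCompletion K :=
  (algebraMap K (v.adicCompletion K)).comp (algebraMap (𝓞 K) K)

theorem v_coe (v : HeightOneSpectrum (𝓞 K)) (k : K) :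
    Valued.v (algebraMap K (v.adicCompletion K) k) = v.valuation K k :=
  HeightOneSpectrum.valuedAdicCompletion_eq_valuation' v k

theorem v_io (v : HeightOneSpectrum (𝓞 K)) (a : 𝓞 K) :
    Valued.v (io v a) = v.intValuation a := by
  rw [RingHom.comp_apply, v_coe, HeightOneSpectrum.valuation_of_algebraMap]

theorem approx (v : HeightOneSpectrum (𝓞 K)) (y : v.adicCompletion K)
    (hy : Valued.v y ≤ 1) (n : ℕ) :
    ∃ a : 𝓞 K, Valued.v (io v a - y) < exp (-(n : ℤ)) := by
  have hdense := HeightOneSpectrum.denseRange_algebraMap (R := 𝓞 K) K v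
  obtain ⟨g, hg⟩ := HeightOneSpectrum.valuedAdicCompletion_surjective K v (exp (-(n : ℤ)))
  have hg0 : Valued.v.restrict g ≠ 0 := by
    intro h
    rw [Valuation.restrict_eq_zero_iff] at h
    rw [hg] at h
    exact exp_ne_zero h
  have hs : {z : v.adicCompletion K |
      Valued.v.restrict (z - y) < (Units.mk0 _ hg0).1} ∈ nhds y :=
    Valued.mem_nhds.2 ⟨_, subset_rfl⟩
  obtain ⟨k, hk⟩ := hdense.mem_nhds hs
  have hk' : Valued.v (algebraMap K (v.adicCompletion K) k - y) < exp (-(n : ℤ)) := by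
    rw [← hg]
    exact (Valued.v.restrict_lt_iff).1 hk
  have hexp : exp (-(n : ℤ)) ≤ (1 : ℤᵐ⁰) := by
    rw [← exp_zero]
    exact exp_le_exp.2 (by omega)
  have hk1 : v.valuation K k ≤ 1 := by
    rw [← v_coe]
    have h1 : algebraMap K (v.adicCompletion K) k
        = (algebraMap K (v.adicCompletion K) k - y) + y := by ring
    rw [h1]
    refine le_trans (Valuation.map_add _ _ _) (max_le ?_ hy)
    exact le_trans hk'.le hexp
  obtain ⟨a, ha⟩ := v.exists_valuation_sub_lt_of_integer hk1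
    (Units.mk0 (exp (-(n : ℤ))) exp_ne_zero)
  refine ⟨a, ?_⟩
  have h2 : io v a - y = algebraMap K (v.adicCompletion K) (algebraMap (𝓞 K) K a - k)
      + (algebraMap K (v.adicCompletion K) k - y) := by
    rw [map_sub, RingHom.comp_apply]
    ring
  rw [h2]
  refine lt_of_le_of_lt (Valuation.map_add _ _ _) (max_lt ?_ hk')
  rw [v_coe]
  exact ha

/-- valuation of a quadratic form -/
theorem qf_le (v : HeightOneSpectrum (𝓞 K)) {s : ℕ} (f : Mon s → 𝓞 K)
    (x y : Fin s → v.adicCompletion K) (γ : ℤᵐ⁰)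
    (hx : ∀ j, Valued.v (x j) ≤ 1) (hy : ∀ j, Valued.v (y j) ≤ 1)
    (hxy : ∀ j, Valued.v (y j - x j) ≤ γ) :
    Valued.v (qf (fun p => algebraMap K (v.adicCompletion K) (f p)) y
      - qf (fun p => algebraMap K (v.adicCompletion K) (f p)) x) ≤ γ := by
  rw [qf, qf, ← Finset.sum_sub_distrib]
  refine Valuation.map_sum_le _ fun p _ => ?_
  have h1 : algebraMap K (v.adicCompletion K) (f p) * (y p.1.1 * y p.1.2)
      - algebraMap K (v.adicCompletion K) (f p) * (x p.1.1 * x p.1.2)
      = algebraMap K (v.adicCompletion K) (f p) *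
        ((y p.1.1 - x p.1.1) * y p.1.2 + x p.1.1 * (y p.1.2 - x p.1.2)) := by ring
  have hf : Valued.v (algebraMap K (v.adicCompletion K) (f p)) ≤ 1 := by
    rw [v_coe]
    exact v.valuation_le_one (f p)
  rw [h1, map_mul]
  refine le_trans (mul_le_of_le_one_left' hf) ?_
  refine le_trans (Valuation.map_add _ _ _) (max_le ?_ ?_)
  · rw [map_mul]
    exact le_trans (mul_le_of_le_one_right' (hy _)) (hxy _)
  · rw [map_mul]
    exact le_trans (mul_le_of_le_one_left' (hx _)) (hxy _)

theorem qf_io (v : HeightOneSpectrum (𝓞 K)) {s : ℕ} (f : Mon s → 𝓞 K) (y : Fin s → 𝓞 K) :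
    qf (fun p => algebraMap K (v.adicCompletion K) (f p)) (fun j => io v (y j))
      = io v (qf f y) := by
  rw [qf, qf, map_sum]
  refine Finset.sum_congr rfl fun p _ => ?_
  rw [map_mul, map_mul]
  rfl

end Pool.Agent.H74.RK.QPZ

namespace Pool.Agent.H74.RK

open IsDedekindDomain WithZero QPZ

theorem pf_QPZ (K : Type) [Field K] [NumberField K] : T_QPZ K := by
  classical
  rintro s t v c ⟨x, hx0, hx⟩
  -- a coordinate of maximal valuation
  have hne : Nonempty (Fin s) := by
    by_contra h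
    rw [not_nonempty_iff] at h
    exact hx0 (funext fun j => (h.false j).elim)
  obtain ⟨i0, -, hi0⟩ := Finset.exists_max_image (Finset.univ : Finset (Fin s))
    (fun j => Valued.v (x j)) Finset.univ_nonempty
  have hxi : x i0 ≠ 0 := by
    intro h
    apply hx0
    funext j
    have h1 := hi0 j (Finset.mem_univ _)
    rw [h, map_zero, le_zero_iff, map_eq_zero] at h1
    exact h1
  -- normalise
  obtain ⟨z, hz⟩ : ∃ z : Fin s → v.adicCompletion K, ∀ j, z j = x j * (x i0)⁻¹ :=
    ⟨fun j => x j * (x i0)⁻¹, fun j => rfl⟩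
  have hz1 : z i0 = 1 := by rw [hz, mul_inv_cancel₀ hxi]
  have hzle : ∀ j, Valued.v (z j) ≤ 1 := by
    intro j
    rw [hz, map_mul, map_inv₀]
    have h2 : Valued.v (x i0) ≠ 0 := by rwa [ne_eq, map_eq_zero]
    rw [← div_eq_mul_inv, div_le_one₀ (zero_lt_iff.2 h2)]
    exact hi0 j (Finset.mem_univ _)
  have hzq : ∀ i, qf (fun p => algebraMap K (v.adicCompletion K) (c i p)) z = 0 := by
    intro i
    have h1 : qf (fun p => algebraMap K (v.adicCompletion K) (c i p)) z
        = (x i0)⁻¹ * (x i0)⁻¹ *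
          qf (fun p => algebraMap K (v.adicCompletion K) (c i p)) x := by
      rw [qf, qf, Finset.mul_sum]
      refine Finset.sum_congr rfl fun p _ => ?_
      rw [hz, hz]
      ring
    rw [h1, hx i, mul_zero]
  -- approximate
  have hex : ∀ j, ∃ a : 𝓞 K, Valued.v (io v a - z j) < exp (-((2 * t : ℕ) : ℤ)) :=
    fun j => approx v (z j) (hzle j) (2 * t)
  choose y hy using hex
  have hexp : exp (-((2 * t : ℕ) : ℤ)) ≤ (1 : ℤᵐ⁰) := by
    rw [← exp_zero]
    exact exp_le_exp.2 (by omega)
  have hyle : ∀ j, Valued.v (io v (y j)) ≤ 1 := by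
    intro j
    rw [v_io]
    exact v.intValuation_le_one _
  have hqf : ∀ i, qf (c i) y ∈ v.asIdeal ^ (2 * t) := by
    intro i
    rw [← v.intValuation_le_pow_iff_mem, ← v_io, ← qf_io]
    have h1 := qf_le v (c i) z (fun j => io v (y j)) (exp (-((2 * t : ℕ) : ℤ)))
      hzle hyle (fun j => (hy j).le)
    rw [hzq i, sub_zero] at h1
    exact h1
  have hyi : y i0 ∉ v.asIdeal := by
    rw [← v.intValuation_lt_one_iff_mem, ← v_io]
    intro h1
    have h2 := hy i0
    rw [hz1] at h2
    have h3 : (1 : v.adicCompletion K) = io v (y i0) - (io v (y i0) - 1) := by ring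
    have h4 : Valued.v (1 : v.adicCompletion K) < 1 := by
      rw [h3]
      refine lt_of_le_of_lt (Valuation.map_sub _ _ _) (max_lt h1 ?_)
      exact lt_of_lt_of_le h2 hexp
    rw [map_one] at h4
    exact lt_irrefl _ h4
  by_cases hj : ∃ j l, jm c y j l ∉ v.asIdeal ^ t
  · left
    exact ⟨y, ⟨i0, hyi⟩, hqf, hj⟩
  · right
    push Not at hj
    exact ⟨y, ⟨i0, hyi⟩, fun i => Ideal.pow_le_pow_right (by omega) (hqf i), hj⟩

end Pool.Agent.H74.RK
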