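import Pool.Agent.H92.RK.Targets

/-!
CB2: the invariant component, large radii.
-/

open MeasureTheory Set
open scoped ENNReal

namespace Pool.Agent.H74.RK

open Pool.Agent.H92.RK

theorem r2_pos : 0 < r₂ := Real.sqrt_pos.2 (by norm_num)

theorem r2_sq : r₂ ^ 2 = 19 / 10 := Real.sq_sqrt (by norm_num)

theorem cb2_circle (g : ℝ → ℂ) (hg : Continuous g) (c : ℝ) (hc : 0 ≤ c) :
    ∫⁻ θ in Ioo (-Real.pi) Real.pi, ENNReal.ofReal (‖g θ‖ ^ 2 * c) =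
      ENNReal.ofReal ((∫ θ in (-Real.pi)..Real.pi, ‖g θ‖ ^ 2) * c) := by
  have hpi := Real.pi_pos
  rw [intervalIntegral.integral_of_le (by linarith), integral_Ioc_eq_integral_Ioo,
    ← integral_mul_const, ofReal_integral_eq_lintegral_ofReal]
  · exact (((hg.norm.pow 2).mul continuous_const).integrableOn_Icc).mono_set
      Ioo_subset_Icc_self
  · exact Filter.Eventually.of_forall fun θ => by positivity

theorem pf_CB2 (hRB2 : T_RB2) (hFA0 : T_FA0) (hRHO : T_RHO) : T_CB2 := by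
  intro k Ω W Wr Wt hk hΩ hvol hPF hQP
  have hpi := Real.pi_pos
  obtain ⟨hρm, hρi, hρ0, hop⟩ := hRHO Ω hΩ
  set ρ : ℝ → ℝ≥0∞ := fun θ => rv {r | pt r θ ∈ Ω} with hρdef
  have hρle : ∫⁻ θ in Ioo (-Real.pi) Real.pi, ρ θ ≤ ENNReal.ofReal (2 * Real.pi) := by
    rw [hρi, hvol, ENNReal.ofReal_mul (by norm_num)]
    simp
  have hcW : ∀ r, Continuous (W r) := fun r => hPF.c0.comp (by fun_prop : Continuous fun θ => (r, θ))
  have hcT : ∀ r, Continuous (Wt r) := fun r => hPF.ct.comp (by fun_prop : Continuous fun θ => (r, θ))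
  have hcR : ∀ θ, Continuous (fun r => Wr r θ) :=
    fun θ => hPF.cr.comp (by fun_prop : Continuous fun r => (r, θ))
  have hW0 : ∀ r, 0 < r → ∀ θ, ρ θ = 0 → W r θ = 0 := by
    intro r hr θ h0
    by_contra hne
    exact hρ0 θ h0 r hr (hPF.supp θ (subset_tsupport _ hne))
  -- measurability
  have hm0 : Measurable fun p : ℝ × ℝ => ENNReal.ofReal (‖W p.1 p.2‖ ^ 2 * p.1) :=
    ENNReal.measurable_ofReal.comp
      (((hPF.c0.norm.pow 2).mul continuous_fst).measurable)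
  have hmr : Measurable fun p : ℝ × ℝ => ENNReal.ofReal (‖Wr p.1 p.2‖ ^ 2 * p.1) :=
    ENNReal.measurable_ofReal.comp
      (((hPF.cr.norm.pow 2).mul continuous_fst).measurable)
  have hmt : Measurable fun p : ℝ × ℝ => ENNReal.ofReal (‖Wt p.1 p.2‖ ^ 2 / p.1 ^ 2 * p.1) :=
    ENNReal.measurable_ofReal.comp
      ((((hPF.ct.norm.pow 2).measurable).div (measurable_fst.pow_const 2)).mul measurable_fst)
  have hmU : Measurable fun p : ℝ × ℝ => ENNReal.ofReal (Real.pi ^ 2 * p.1 ^ 2) / ρ p.2 ^ 2 *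
      ENNReal.ofReal (‖W p.1 p.2‖ ^ 2 * p.1) :=
    ((ENNReal.measurable_ofReal.comp (by fun_prop)).div
      ((hρm.comp measurable_snd).pow_const 2)).mul hm0
  -- the inequality on a circle
  have hcirc : ∀ r ∈ Ioi r₂,
      15 * ∫⁻ θ in Ioo (-Real.pi) Real.pi, ENNReal.ofReal (‖W r θ‖ ^ 2 * r) ≤
      (∫⁻ θ in Ioo (-Real.pi) Real.pi, ENNReal.ofReal (‖Wt r θ‖ ^ 2 / r ^ 2 * r)) +
      ∫⁻ θ in Ioo (-Real.pi) Real.pi, ENNReal.ofReal (Real.pi ^ 2 * r ^ 2) / ρ θ ^ 2 *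
        ENNReal.ofReal (‖W r θ‖ ^ 2 * r) := by
    intro r hr
    have hr0 : 0 < r := r2_pos.trans hr
    have hx : 19 / 10 ≤ r ^ 2 := by
      rw [← r2_sq]; exact pow_le_pow_left₀ r2_pos.le hr.le 2
    have h := hFA0 k (r ^ 2) (W r) (Wt r) ρ hk hx ⟨fun θ => hPF.dt r θ, hcT r⟩ (hQP r) hρm hρle
      (hW0 r hr0)
    have h2 := mul_le_mul_left h (ENNReal.ofReal r)
    rw [add_mul] at h2
    have e1 : 15 * ∫⁻ θ in Ioo (-Real.pi) Real.pi, ENNReal.ofReal (‖W r θ‖ ^ 2 * r) =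
        ENNReal.ofReal (15 * ∫ θ in (-Real.pi)..Real.pi, ‖W r θ‖ ^ 2) * ENNReal.ofReal r := by
      rw [cb2_circle (W r) (hcW r) r hr0.le,
        show (15 : ℝ≥0∞) = ENNReal.ofReal 15 by norm_num,
        ← ENNReal.ofReal_mul (by norm_num), ← ENNReal.ofReal_mul, mul_assoc]
      have : 0 ≤ ∫ θ in (-Real.pi)..Real.pi, ‖W r θ‖ ^ 2 :=
        intervalIntegral.integral_nonneg (by linarith) fun θ _ => by positivity
      positivity
    have e2 : (∫⁻ θ in Ioo (-Real.pi) Real.pi, ENNReal.ofReal (‖Wt r θ‖ ^ 2 / r ^ 2 * r)) =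
        ENNReal.ofReal ((∫ θ in (-Real.pi)..Real.pi, ‖Wt r θ‖ ^ 2) / r ^ 2) *
          ENNReal.ofReal r := by
      have h3 : ∀ θ, ‖Wt r θ‖ ^ 2 / r ^ 2 * r = ‖Wt r θ‖ ^ 2 * (r / r ^ 2) := fun θ => by ring
      simp_rw [h3]
      rw [cb2_circle (Wt r) (hcT r) _ (by positivity), ← ENNReal.ofReal_mul]
      · congr 1; ring
      · have : 0 ≤ ∫ θ in (-Real.pi)..Real.pi, ‖Wt r θ‖ ^ 2 :=
          intervalIntegral.integral_nonneg (by linarith) fun θ _ => by positivity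
        positivity
    have e3 : (∫⁻ θ in Ioo (-Real.pi) Real.pi, ENNReal.ofReal (Real.pi ^ 2 * r ^ 2) / ρ θ ^ 2 *
        ENNReal.ofReal (‖W r θ‖ ^ 2 * r)) =
        (∫⁻ θ in Ioo (-Real.pi) Real.pi, ENNReal.ofReal (Real.pi ^ 2 * r ^ 2) / ρ θ ^ 2 *
          ENNReal.ofReal (‖W r θ‖ ^ 2)) * ENNReal.ofReal r := by
      rw [← lintegral_mul_const'' _ ?_]
      · refine lintegral_congr fun θ => ?_
        rw [ENNReal.ofReal_mul (by positivity : 0 ≤ ‖W r θ‖ ^ 2), mul_assoc]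
      · exact ((measurable_const.div (hρm.pow_const 2)).mul
          (ENNReal.measurable_ofReal.comp ((hcW r).norm.pow 2).measurable)).aemeasurable
    rw [e1, e2, e3]
    exact h2
  have hray : ∀ θ, ∫⁻ r in Ioi r₂, ENNReal.ofReal (Real.pi ^ 2 * r ^ 2) / ρ θ ^ 2 *
        ENNReal.ofReal (‖W r θ‖ ^ 2 * r) ≤
      ∫⁻ r in Ioi r₂, ENNReal.ofReal (‖Wr r θ‖ ^ 2 * r) := by
    intro θ
    obtain ⟨R, _, hR⟩ := hPF.bd
    have hRθ : ∃ R, ∀ r, R ≤ r → (fun r => W r θ) r = 0 := ⟨R, fun r hr => hR r θ hr⟩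
    have h := hRB2 {r | pt r θ ∈ Ω} r₂ (fun r => W r θ) (fun r => Wr r θ) (hop θ) r2_pos
      ⟨fun r => hPF.dr r θ, hcR θ⟩ hRθ (hPF.supp θ)
    have e : rv {r | pt r θ ∈ Ω} = ρ θ := rfl
    rw [e] at h
    exact h
  have hsw : ∫⁻ r in Ioi r₂, ∫⁻ θ in Ioo (-Real.pi) Real.pi,
      ENNReal.ofReal (Real.pi ^ 2 * r ^ 2) / ρ θ ^ 2 * ENNReal.ofReal (‖W r θ‖ ^ 2 * r) ≤
      ∫⁻ r in Ioi r₂, ∫⁻ θ in Ioo (-Real.pi) Real.pi, ENNReal.ofReal (‖Wr r θ‖ ^ 2 * r) := by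
    have s1 := lintegral_lintegral_swap
      (μ := (volume : Measure ℝ).restrict (Ioi r₂))
      (ν := (volume : Measure ℝ).restrict (Ioo (-Real.pi) Real.pi))
      (f := fun r θ => ENNReal.ofReal (Real.pi ^ 2 * r ^ 2) / ρ θ ^ 2 *
        ENNReal.ofReal (‖W r θ‖ ^ 2 * r)) hmU.aemeasurable
    have s2 := lintegral_lintegral_swap
      (μ := (volume : Measure ℝ).restrict (Ioi r₂))
      (ν := (volume : Measure ℝ).restrict (Ioo (-Real.pi) Real.pi))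
      (f := fun r θ => ENNReal.ofReal (‖Wr r θ‖ ^ 2 * r)) hmr.aemeasurable
    rw [s1, s2]
    exact lintegral_mono hray
  have hpt : ∀ r ∈ Ioi r₂, ((∫⁻ θ in Ioo (-Real.pi) Real.pi,
        ENNReal.ofReal (‖Wt r θ‖ ^ 2 / r ^ 2 * r)) +
      ∫⁻ θ in Ioo (-Real.pi) Real.pi, ENNReal.ofReal (‖Wr r θ‖ ^ 2 * r)) =
      ∫⁻ θ in Ioo (-Real.pi) Real.pi,
        ENNReal.ofReal ((‖Wr r θ‖ ^ 2 + ‖Wt r θ‖ ^ 2 / r ^ 2) * r) := by
    intro r hr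
    have hr0 : 0 < r := r2_pos.trans hr
    have hmt' : Measurable fun θ => ENNReal.ofReal (‖Wt r θ‖ ^ 2 / r ^ 2 * r) :=
      ENNReal.measurable_ofReal.comp
        ((((hcT r).norm.pow 2).div_const (r ^ 2)).mul continuous_const).measurable
    rw [← lintegral_add_left hmt']
    refine lintegral_congr fun θ => ?_
    rw [← ENNReal.ofReal_add (by positivity) (by positivity)]
    congr 1; ring
  calc 15 * ∫⁻ r in Ioi r₂, ∫⁻ θ in Ioo (-Real.pi) Real.pi, ENNReal.ofReal (‖W r θ‖ ^ 2 * r)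
      = ∫⁻ r in Ioi r₂, 15 * ∫⁻ θ in Ioo (-Real.pi) Real.pi, ENNReal.ofReal (‖W r θ‖ ^ 2 * r) := by
        rw [lintegral_const_mul _ hm0.lintegral_prod_right']
    _ ≤ ∫⁻ r in Ioi r₂, ((∫⁻ θ in Ioo (-Real.pi) Real.pi,
          ENNReal.ofReal (‖Wt r θ‖ ^ 2 / r ^ 2 * r)) +
          ∫⁻ θ in Ioo (-Real.pi) Real.pi, ENNReal.ofReal (Real.pi ^ 2 * r ^ 2) / ρ θ ^ 2 *
            ENNReal.ofReal (‖W r θ‖ ^ 2 * r)) :=
        setLIntegral_mono' measurableSet_Ioi hcirc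
    _ = (∫⁻ r in Ioi r₂, ∫⁻ θ in Ioo (-Real.pi) Real.pi,
          ENNReal.ofReal (‖Wt r θ‖ ^ 2 / r ^ 2 * r)) +
        ∫⁻ r in Ioi r₂, ∫⁻ θ in Ioo (-Real.pi) Real.pi,
          ENNReal.ofReal (Real.pi ^ 2 * r ^ 2) / ρ θ ^ 2 * ENNReal.ofReal (‖W r θ‖ ^ 2 * r) := by
        rw [lintegral_add_left hmt.lintegral_prod_right']
    _ ≤ (∫⁻ r in Ioi r₂, ∫⁻ θ in Ioo (-Real.pi) Real.pi,
          ENNReal.ofReal (‖Wt r θ‖ ^ 2 / r ^ 2 * r)) +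
        ∫⁻ r in Ioi r₂, ∫⁻ θ in Ioo (-Real.pi) Real.pi, ENNReal.ofReal (‖Wr r θ‖ ^ 2 * r) := by
        gcongr
    _ = ∫⁻ r in Ioi r₂, ((∫⁻ θ in Ioo (-Real.pi) Real.pi,
          ENNReal.ofReal (‖Wt r θ‖ ^ 2 / r ^ 2 * r)) +
        ∫⁻ θ in Ioo (-Real.pi) Real.pi, ENNReal.ofReal (‖Wr r θ‖ ^ 2 * r)) := by
        rw [lintegral_add_left hmt.lintegral_prod_right']
    _ = ∫⁻ r in Ioi r₂, ∫⁻ θ in Ioo (-Real.pi) Real.pi,
          ENNReal.ofReal ((‖Wr r θ‖ ^ 2 + ‖Wt r θ‖ ^ 2 / r ^ 2) * r) :=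
        setLIntegral_congr_fun measurableSet_Ioi hpt

end Pool.Agent.H74.RK
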