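import Pool.Agent.H92.RK.Targets

/-!
HOL: Hoelder with the weight `1 / ρ ^ 2`.
-/

open MeasureTheory Set
open scoped ENNReal

namespace Pool.Agent.H74.RK

open Pool.Agent.H92.RK

theorem hol_pt (a : ℝ) (ha : 0 ≤ a) (r : ℝ≥0∞) (hr : r ≠ ⊤) (h0 : r = 0 → a = 0) :
    ENNReal.ofReal (a ^ (2 / 3 : ℝ)) =
      (ENNReal.ofReal (a ^ 2) / r ^ 2) ^ (1 / 3 : ℝ) * r ^ (2 / 3 : ℝ) := by
  by_cases hz : r = 0
  · rw [h0 hz, hz, ENNReal.zero_rpow_of_pos (by norm_num : (0 : ℝ) < 2 / 3)]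
    simp [Real.zero_rpow (by norm_num : (2 / 3 : ℝ) ≠ 0)]
  · have h1 : r ^ (2 / 3 : ℝ) = (r ^ 2) ^ (1 / 3 : ℝ) := by
      rw [← ENNReal.rpow_natCast, ← ENNReal.rpow_mul]; norm_num
    have h2 : a ^ (2 / 3 : ℝ) = (a ^ 2) ^ (1 / 3 : ℝ) := by
      rw [← Real.rpow_natCast, ← Real.rpow_mul ha]; norm_num
    rw [h1, ← ENNReal.mul_rpow_of_nonneg _ _ (by norm_num : (0 : ℝ) ≤ 1 / 3),
      ENNReal.div_mul_cancel (pow_ne_zero 2 hz) (ENNReal.pow_ne_top hr), h2,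
      ENNReal.ofReal_rpow_of_nonneg (by positivity) (by norm_num)]

theorem pf_HOL : T_HOL := by
  intro g ρ hg hg0 hρm hρ hz
  have hpi := Real.pi_pos
  set μ := (volume : Measure ℝ).restrict (Ioo (-Real.pi) Real.pi) with hμ
  have hgc : Continuous fun θ => g θ ^ (2 / 3 : ℝ) :=
    hg.rpow_const (fun x => Or.inr (by norm_num))
  have h1 : ENNReal.ofReal (∫ θ in (-Real.pi)..Real.pi, g θ ^ (2 / 3 : ℝ)) =
      ∫⁻ θ, ENNReal.ofReal (g θ ^ (2 / 3 : ℝ)) ∂μ := by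
    rw [intervalIntegral.integral_of_le (by linarith), integral_Ioc_eq_integral_Ioo]
    rw [ofReal_integral_eq_lintegral_ofReal]
    · exact (hgc.integrableOn_Icc).mono_set Ioo_subset_Icc_self
    · exact Filter.Eventually.of_forall fun θ => Real.rpow_nonneg (hg0 θ) _
  have hnn : 0 ≤ ∫ θ in (-Real.pi)..Real.pi, g θ ^ (2 / 3 : ℝ) :=
    intervalIntegral.integral_nonneg (by linarith) fun θ _ => Real.rpow_nonneg (hg0 θ) _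
  have hfin : ∀ᵐ θ ∂μ, ρ θ ≠ ⊤ := by
    have h2 : ∫⁻ θ, ρ θ ∂μ ≠ ⊤ := ne_top_of_le_ne_top ENNReal.ofReal_ne_top hρ
    exact (ae_lt_top hρm h2).mono fun θ h => h.ne
  have hgm : Measurable g := hg.measurable
  have hm1 : Measurable fun θ => (ENNReal.ofReal (g θ ^ 2) / ρ θ ^ 2) ^ (1 / 3 : ℝ) :=
    ((ENNReal.measurable_ofReal.comp (hgm.pow_const 2)).div (hρm.pow_const 2)).pow_const _
  have hm2 : Measurable fun θ => ρ θ ^ (2 / 3 : ℝ) := hρm.pow_const _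
  have hH := ENNReal.lintegral_mul_le_Lp_mul_Lq μ
    (Real.holderConjugate_iff.2 ⟨by norm_num, by norm_num⟩ : (3 : ℝ).HolderConjugate (3 / 2))
    hm1.aemeasurable hm2.aemeasurable
  have hL : ∫⁻ θ, ((fun θ => (ENNReal.ofReal (g θ ^ 2) / ρ θ ^ 2) ^ (1 / 3 : ℝ)) *
      (fun θ => ρ θ ^ (2 / 3 : ℝ))) θ ∂μ = ∫⁻ θ, ENNReal.ofReal (g θ ^ (2 / 3 : ℝ)) ∂μ := by
    refine lintegral_congr_ae (hfin.mono fun θ h => ?_)
    simp only [Pi.mul_apply]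
    exact (hol_pt (g θ) (hg0 θ) (ρ θ) h (hz θ)).symm
  have hA : ∫⁻ θ, ((ENNReal.ofReal (g θ ^ 2) / ρ θ ^ 2) ^ (1 / 3 : ℝ)) ^ (3 : ℝ) ∂μ =
      ∫⁻ θ, ENNReal.ofReal (g θ ^ 2) / ρ θ ^ 2 ∂μ := by
    refine lintegral_congr fun θ => ?_
    rw [← ENNReal.rpow_mul]; norm_num
  have hR : ∫⁻ θ, (ρ θ ^ (2 / 3 : ℝ)) ^ (3 / 2 : ℝ) ∂μ = ∫⁻ θ, ρ θ ∂μ := by
    refine lintegral_congr fun θ => ?_
    rw [← ENNReal.rpow_mul]; norm_num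
  rw [hL, hA, hR, ← h1] at hH
  set A := ∫⁻ θ, ENNReal.ofReal (g θ ^ 2) / ρ θ ^ 2 ∂μ with hAdef
  set I := ∫ θ in (-Real.pi)..Real.pi, g θ ^ (2 / 3 : ℝ) with hI
  have h3 : ENNReal.ofReal I ^ 3 ≤ A * (ENNReal.ofReal (2 * Real.pi)) ^ 2 := by
    calc ENNReal.ofReal I ^ 3 ≤ (A ^ (1 / 3 : ℝ) * (∫⁻ θ, ρ θ ∂μ) ^ (1 / (3 / 2) : ℝ)) ^ 3 :=
          pow_le_pow_left' hH 3
      _ ≤ (A ^ (1 / 3 : ℝ) * (ENNReal.ofReal (2 * Real.pi)) ^ (1 / (3 / 2) : ℝ)) ^ 3 := by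
          refine pow_le_pow_left' (mul_le_mul_right ?_ _) 3
          exact ENNReal.rpow_le_rpow hρ (by norm_num)
      _ = A * (ENNReal.ofReal (2 * Real.pi)) ^ 2 := by
          rw [mul_pow, ← ENNReal.rpow_natCast (A ^ (1 / 3 : ℝ)), ← ENNReal.rpow_mul,
            ← ENNReal.rpow_natCast ((ENNReal.ofReal (2 * Real.pi)) ^ (1 / (3 / 2) : ℝ)),
            ← ENNReal.rpow_mul, ← ENNReal.rpow_natCast (ENNReal.ofReal (2 * Real.pi)) 2]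
          norm_num
  have h4 : ENNReal.ofReal (I ^ 3 / (4 * Real.pi ^ 2)) * ENNReal.ofReal (2 * Real.pi) ^ 2 =
      ENNReal.ofReal I ^ 3 := by
    rw [← ENNReal.ofReal_pow (by positivity), ← ENNReal.ofReal_pow hnn,
      ← ENNReal.ofReal_mul (by positivity)]
    congr 1
    field_simp
    ring
  rw [← h4] at h3
  exact (ENNReal.mul_le_mul_iff_left (by
    exact pow_ne_zero 2 (by simp [hpi])) (ENNReal.pow_ne_top ENNReal.ofReal_ne_top)).1 h3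

end Pool.Agent.H74.RK
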